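import Pool.Agent.H500.TH.Stm

set_option autoImplicit false
set_option linter.unusedSectionVars false

/-!
# Part A6 of project TH (helper500), by helper962: density zero, elements of an algebraic closure of `E`

The sections on multiplicative relations are taken from `Pool/Agent/H870/HC/KD.lean` (helper870), the
existence of Frobenius elements for a given `Q` from `Pool.Agent.W401.Frob` (helper327).
-/

namespace Pool.Agent.H962.TH.TKD0

open NumberField IsDedekindDomain Filter Topology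
open Pool.Agent.W401.Cheb (GK IsFrob dens)
open Pool.Agent.W569.FM (OO GF)
open Pool.Agent.H500.HC (S_Indep)
open Pool.Agent.H500.TH

section mult

theorem zp {K : Type} [Field K] {x : K} (hx : x ≠ 0) (n : ℤ) :
    x ^ n * x ^ (-n).toNat = x ^ n.toNat := by
  rw [← zpow_natCast, ← zpow_natCast, ← zpow_add₀ hx]
  congr 1
  omega

theorem zsum {K : Type} [Field K] {x : K} (hx : x ≠ 0) {σ : Type} (t : Finset σ) (f : σ → ℤ) :
    x ^ (∑ i ∈ t, f i) = ∏ i ∈ t, x ^ f i := by
  classical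
  induction t using Finset.induction_on with
  | empty => simp
  | insert a s ha ih => rw [Finset.sum_insert ha, Finset.prod_insert ha, zpow_add₀ hx, ih]

/-- transfer of a multiplicative relation to a residue field -/
theorem transfer {F ι : Type} [Field F] [Fintype ι] (b : ι → 𝓞 F)
    (hb : ∀ i, b i ≠ 0) (c : 𝓞 F) (m : ℕ) (L : ι → ℤ)
    (h : (c : F) ^ m = ∏ i, (b i : F) ^ L i) {k' : Type} [Field k'] (f : 𝓞 F →+* k')
    (hf : ∀ i, f (b i) ≠ 0) : f c ^ m = ∏ i, f (b i) ^ L i := by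
  have hb' : ∀ i, (b i : F) ≠ 0 := fun i h0 => hb i (RingOfIntegers.ext h0)
  have h1 : c ^ m * ∏ i, b i ^ (-L i).toNat = ∏ i, b i ^ (L i).toNat := by
    apply RingOfIntegers.ext
    show algebraMap (𝓞 F) F _ = algebraMap (𝓞 F) F _
    rw [map_mul, map_pow, map_prod, map_prod]
    simp only [map_pow]
    rw [show algebraMap (𝓞 F) F c = (c : F) from rfl, h, ← Finset.prod_mul_distrib]
    exact Finset.prod_congr rfl fun i _ => zp (hb' i) _
  have h2 := congrArg f h1
  rw [map_mul, map_pow, map_prod, map_prod] at h2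
  simp only [map_pow] at h2
  have h3 : ∏ i, f (b i) ^ (L i).toNat = (∏ i, f (b i) ^ L i) * ∏ i, f (b i) ^ (-L i).toNat := by
    rw [← Finset.prod_mul_distrib]
    exact Finset.prod_congr rfl fun i _ => (zp (hf i) _).symm
  rw [h3] at h2
  exact mul_right_cancel₀ (Finset.prod_ne_zero_iff.2 fun i _ => pow_ne_zero _ (hf i)) h2

/-- a maximal multiplicatively independent subfamily -/
theorem exists_basis {F J : Type} [Field F] [Fintype J] (c : J → F) (hc : ∀ i, c i ≠ 0) :
    ∃ (ι : Type) (_ : Fintype ι) (e : ι → J) (m : ℕ) (L : J → ι → ℤ), 0 < m ∧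
      (∀ n : ι → ℤ, ∏ i, c (e i) ^ n i = 1 → n = 0) ∧
      ∀ j, c j ^ m = ∏ i, c (e i) ^ L j i := by
  classical
  obtain ⟨u, hu⟩ : ∃ u : J → Additive Fˣ, ∀ j, ((Additive.toMul (u j) : Fˣ) : F) = c j :=
    ⟨fun j => Additive.ofMul (Units.mk0 (c j) (hc j)), fun j => rfl⟩
  obtain ⟨s, hs, hmax⟩ := exists_maximal_linearIndepOn ℤ u
  have hsum : ∀ n : s → ℤ, ((Additive.toMul (∑ i, n i • u (i : J)) : Fˣ) : F) =
      ∏ i : s, c i ^ n i := by
    intro n
    rw [toMul_sum, Units.coe_prod]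
    refine Finset.prod_congr rfl fun i _ => ?_
    rw [toMul_zsmul, Units.val_zpow_eq_zpow_val, hu]
  have hspan : ∀ j, ∃ a : ℤ, a ≠ 0 ∧ ∃ l : s → ℤ, ∑ i, l i • u (i : J) = a • u j := by
    intro j
    have h1 : ∃ a : ℤ, a ≠ 0 ∧ a • u j ∈ Submodule.span ℤ (u '' s) := by
      by_cases hj : j ∈ s
      · exact ⟨1, one_ne_zero, by rw [one_smul]; exact Submodule.subset_span ⟨j, hj, rfl⟩⟩
      · exact hmax j hj
    obtain ⟨a, ha, hm⟩ := h1
    refine ⟨a, ha, ?_⟩
    have h2 : u '' s = Set.range fun i : s => u (i : J) := Set.image_eq_range u s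
    rw [h2, Submodule.mem_span_range_iff_exists_fun] at hm
    exact hm
  choose a ha l hl using hspan
  have hdvd : ∀ j, ∃ q : ℤ, ((∏ j, (a j).natAbs : ℕ) : ℤ) = q * a j := by
    intro j
    have h1 : (a j).natAbs ∣ ∏ j, (a j).natAbs := Finset.dvd_prod_of_mem _ (Finset.mem_univ j)
    have h2 : a j ∣ ((∏ j, (a j).natAbs : ℕ) : ℤ) := by
      rw [← Int.natAbs_dvd]
      exact_mod_cast h1
    obtain ⟨q, hq⟩ := h2
    exact ⟨q, by rw [hq, mul_comm]⟩
  choose q hq using hdvd
  refine ⟨s, inferInstance, fun i => i, ∏ j, (a j).natAbs, fun j i => q j * l j i, ?_, ?_, ?_⟩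
  · exact Finset.prod_pos fun j _ => Int.natAbs_pos.2 (ha j)
  · intro n hn
    have h1 : LinearIndependent ℤ (fun i : s => u (i : J)) := hs
    rw [Fintype.linearIndependent_iff] at h1
    have h2 : ∑ i, n i • u (i : J) = 0 := by
      apply Additive.toMul.injective
      apply Units.ext
      rw [hsum, hn]
      rfl
    funext i
    exact h1 n h2 i
  · intro j
    have h1 : ∑ i : s, (q j * l j i) • u (i : J) = ((∏ j, (a j).natAbs : ℕ) : ℤ) • u j := by
      rw [hq j, mul_smul, ← hl j]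
      refine Eq.trans ?_ (map_sum (zsmulAddGroupHom (α := Additive Fˣ) (q j)) _ _).symm
      exact Finset.sum_congr rfl fun i _ => mul_smul _ _ _
    have h2 := hsum fun i => q j * l j i
    rw [h1, toMul_zsmul, Units.val_zpow_eq_zpow_val, hu, zpow_natCast] at h2
    exact h2

end mult

/-- a primitive root of prime order stays primitive modulo `Q` -/
theorem prim_quot {R : Type} [CommRing R] [IsDomain R] {k : Type} [Field k] (f : R →+* k) {z : R}
    {r : ℕ} (hr : r.Prime) (hz : IsPrimitiveRoot z r) (hrk : (r : k) ≠ 0) :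
    IsPrimitiveRoot (f z) r := by
  have h1 : f z ^ r = 1 := by rw [← map_pow, hz.pow_eq_one, map_one]
  have h2 : f z ≠ 1 := by
    intro h
    apply hrk
    have h3 := congrArg f (hz.geom_sum_eq_zero hr.one_lt)
    rw [map_sum, map_zero] at h3
    simpa [map_pow, h] using h3
  have : Fact r.Prime := ⟨hr⟩
  rw [IsPrimitiveRoot.iff_orderOf]
  exact orderOf_eq_prime h1 h2


/-- the action of an endomorphism on a multiplicative relation -/
theorem pw {F ι : Type} [Field F] [Fintype ι] (γ : F →+* F) (b : ι → F) (hb : ∀ i, b i ≠ 0) (m : ℕ)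
    (H : ι → ι → ℤ) (hH : ∀ i, (γ (b i)) ^ m = ∏ k, b k ^ H i k) (x : F) (M : ℕ) (n : ι → ℤ)
    (hx : x ^ M = ∏ i, b i ^ n i) : (γ x) ^ (M * m) = ∏ k, b k ^ (∑ i, n i * H i k) := by
  have h1 : (γ x) ^ (M * m) = ∏ i, ((γ (b i)) ^ m) ^ n i := by
    rw [pow_mul, ← map_pow, hx, map_prod, ← Finset.prod_pow]
    refine Finset.prod_congr rfl fun i _ => ?_
    rw [map_zpow₀, ← zpow_natCast, ← zpow_mul, mul_comm, zpow_mul, zpow_natCast]
  rw [h1]
  have h2 : ∀ i, ((γ (b i)) ^ m) ^ n i = ∏ k, b k ^ (n i * H i k) := by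
    intro i
    rw [hH i, ← Finset.prod_zpow]
    refine Finset.prod_congr rfl fun k _ => ?_
    rw [← zpow_mul, mul_comm]
  rw [Finset.prod_congr rfl fun i _ => h2 i, Finset.prod_comm]
  refine Finset.prod_congr rfl fun k _ => ?_
  rw [zsum (hb k)]

/-- independence: equal products have equal exponents -/
theorem ind_eq {F ι : Type} [Field F] [Fintype ι] (b : ι → F) (hb : ∀ i, b i ≠ 0)
    (hli : ∀ n : ι → ℤ, ∏ i, b i ^ n i = 1 → n = 0) (n n' : ι → ℤ)
    (h : ∏ i, b i ^ n i = ∏ i, b i ^ n' i) : n = n' := by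
  have h1 : ∏ i, b i ^ (n i - n' i) = 1 := by
    have h2 : ∀ i, b i ^ (n i - n' i) = b i ^ n i / b i ^ n' i := fun i => zpow_sub₀ (hb i) _ _
    rw [Finset.prod_congr rfl fun i _ => h2 i, Finset.prod_div_distrib, h]
    exact div_self (Finset.prod_ne_zero_iff.2 fun i _ => zpow_ne_zero _ (hb i))
  have h3 := hli (fun i => n i - n' i) h1
  funext i
  have h4 := congrFun h3 i
  simp only [Pi.zero_apply] at h4
  exact sub_eq_zero.1 h4

section frob

variable {K : Type} [Field K] [NumberField K]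

/-- a Frobenius element for a given maximal ideal of the ring of all algebraic integers -/
theorem exists_frob_at (v : HeightOneSpectrum (𝓞 K)) (Q : Ideal (OO K)) (hQm : Q.IsMaximal)
    (hQv : Q.comap (algebraMap (𝓞 K) (OO K)) = v.asIdeal) :
    ∃ σ : GF K, ∀ x : OO K, σ • x - x ^ Ideal.absNorm v.asIdeal ∈ Q := by
  classical
  have : SMulCommClass (GK K) (𝓞 K) (𝓞 (AlgebraicClosure K)) := Pool.Agent.W401.Frob.smulComm
  have : Algebra.IsInvariant (𝓞 K) (𝓞 (AlgebraicClosure K)) (GK K) := Pool.Agent.W401.Frob.isInv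
  let _ : TopologicalSpace (𝓞 (AlgebraicClosure K)) := ⊥
  have : DiscreteTopology (𝓞 (AlgebraicClosure K)) := ⟨rfl⟩
  have : ContinuousSMul (GK K) (𝓞 (AlgebraicClosure K)) := by
    rw [continuousSMul_iff_stabilizer_isOpen]
    intro x
    have h1 := stabilizer_isOpen_of_isIntegral (K := K) (x : AlgebraicClosure K)
    have h2 : MulAction.stabilizer (GK K) x = MulAction.stabilizer (GK K) (x : AlgebraicClosure K) := by
      ext g
      rw [MulAction.mem_stabilizer_iff, MulAction.mem_stabilizer_iff]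
      constructor
      · intro h
        exact congrArg (fun z : (𝓞 (AlgebraicClosure K)) => (z : AlgebraicClosure K)) h
      · intro h
        exact RingOfIntegers.ext h
    rw [h2]
    exact h1
  have hvm : v.asIdeal.IsMaximal := v.isMaximal
  have : Q.LiesOver v.asIdeal := ⟨hQv.symm⟩
  let _ : Field (𝓞 K ⧸ v.asIdeal) := Ideal.Quotient.field v.asIdeal
  let _ : Field ((𝓞 (AlgebraicClosure K)) ⧸ Q) := Ideal.Quotient.field Q
  have : Finite (𝓞 K ⧸ v.asIdeal) := Ideal.finiteQuotientOfFreeOfNeBot v.asIdeal v.ne_bot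
  let _ : Fintype (𝓞 K ⧸ v.asIdeal) := Fintype.ofFinite _
  have : Algebra.IsAlgebraic (𝓞 K ⧸ v.asIdeal) ((𝓞 (AlgebraicClosure K)) ⧸ Q) := by
    have : Algebra.IsIntegral (𝓞 K ⧸ v.asIdeal) ((𝓞 (AlgebraicClosure K)) ⧸ Q) := inferInstance
    exact Algebra.IsIntegral.isAlgebraic
  obtain ⟨g, hg⟩ := Ideal.Quotient.stabilizerHom_surjective_of_profinite (G := GK K) v.asIdeal Q
    (FiniteField.frobeniusAlgEquivOfAlgebraic (𝓞 K ⧸ v.asIdeal) ((𝓞 (AlgebraicClosure K)) ⧸ Q))
  refine ⟨g.1, fun x => ?_⟩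
  have h1 := DFunLike.congr_fun hg (Ideal.Quotient.mk Q x)
  rw [Ideal.Quotient.stabilizerHom_apply] at h1
  rw [← Ideal.Quotient.mk_eq_mk_iff_sub_mem, map_pow]
  have h2 : Ideal.absNorm v.asIdeal = Fintype.card (𝓞 K ⧸ v.asIdeal) := by
    rw [Ideal.absNorm_apply, Submodule.cardQuot_apply, Nat.card_eq_fintype_card]
  rw [h2]
  exact h1

/-- a finite union of sets of density zero -/
theorem dens_union {Ch : Type} [Fintype Ch] (P : HeightOneSpectrum (𝓞 K) → Prop)
    (Ex : HeightOneSpectrum (𝓞 K) → Prop) (Bad : Ch → HeightOneSpectrum (𝓞 K) → Prop)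
    (h : ∀ v, P v → Ex v ∨ ∃ J, Bad J v) (hEx : Tendsto (dens Ex) atTop (𝓝 0))
    (hBad : ∀ J, Tendsto (dens (Bad J)) atTop (𝓝 0)) : Tendsto (dens P) atTop (𝓝 0) := by
  classical
  have hsum : Tendsto (fun N => dens Ex N + ∑ J : Ch, dens (Bad J) N) atTop (𝓝 0) := by
    have h1 : Tendsto (fun N => ∑ J : Ch, dens (Bad J) N) atTop (𝓝 (∑ _J : Ch, (0 : ℝ))) :=
      tendsto_finsetSum _ fun J _ => hBad J
    rw [Finset.sum_const_zero] at h1
    have h2 := hEx.add h1
    rwa [add_zero] at h2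
  refine squeeze_zero (fun N => Pool.Agent.W528.Ord.dens_nonneg _ N) (fun N => ?_) hsum
  have hunion : ∀ T : Finset Ch, dens (fun l => ∃ J ∈ T, Bad J l) N ≤ ∑ J ∈ T, dens (Bad J) N := by
    intro T
    induction T using Finset.induction_on with
    | empty =>
      rw [Finset.sum_empty]
      have h1 : dens (fun l : HeightOneSpectrum (𝓞 K) => ∃ J ∈ (∅ : Finset Ch), Bad J l) N = 0 := by
        unfold dens
        have : IsEmpty {v : HeightOneSpectrum (𝓞 K) // Ideal.absNorm v.asIdeal ≤ N ∧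
            ∃ J ∈ (∅ : Finset Ch), Bad J v} := by
          refine ⟨fun v => ?_⟩
          obtain ⟨v, -, J, hJ, -⟩ := v
          exact absurd hJ (Finset.notMem_empty _)
        rw [Nat.card_of_isEmpty, Nat.cast_zero, zero_div]
      exact h1.le
    | insert J T hJ ih =>
      rw [Finset.sum_insert hJ]
      refine le_trans (Pool.Agent.W528.Ord.dens_mono (Q := fun l => Bad J l ∨ ∃ J ∈ T, Bad J l)
        ?_ N) ((Pool.Agent.W528.Ord.dens_or _ _ N).trans (add_le_add le_rfl ih))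
      rintro l ⟨J', hJ', h⟩
      rcases Finset.mem_insert.1 hJ' with rfl | h'
      · exact Or.inl h
      · exact Or.inr ⟨J', h', h⟩
  refine le_trans (Pool.Agent.W528.Ord.dens_mono (Q := fun l => Ex l ∨ ∃ J ∈ (Finset.univ :
    Finset Ch), Bad J l) ?_ N) ((Pool.Agent.W528.Ord.dens_or _ _ N).trans
      (add_le_add le_rfl (hunion _)))
  intro l hl
  rcases h l hl with h | ⟨J, h⟩
  · exact Or.inl h
  · exact Or.inr ⟨J, Finset.mem_univ _, h⟩

/-- a finite Galois extension which contains finitely many given elements -/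
theorem exists_gal {J : Type} [Finite J] (c : J → AlgebraicClosure K) :
    ∃ N : IntermediateField K (AlgebraicClosure K), FiniteDimensional K N ∧ IsGalois K N ∧
      ∀ j, c j ∈ N := by
  classical
  set F : IntermediateField K (AlgebraicClosure K) := IntermediateField.adjoin K (Set.range c)
    with hF
  have hfd : FiniteDimensional K F := by
    have : Finite (Set.range c) := inferInstance
    apply IntermediateField.finiteDimensional_adjoin
    rintro _ ⟨v, rfl⟩
    exact (Algebra.IsIntegral.isIntegral (R := K) (c v))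
  refine ⟨IntermediateField.normalClosure K F (AlgebraicClosure K), inferInstance,
    IsGalois.normalClosure K F (AlgebraicClosure K), fun j => ?_⟩
  exact IntermediateField.le_normalClosure F (IntermediateField.subset_adjoin K _ ⟨j, rfl⟩)

end frob

section coset

variable {E : Type} [Field E] [NumberField E]

theorem coe_smul (σ : GF E) (x : OO E) : ((σ • x : OO E) : AlgebraicClosure E) = σ x := rfl

/-- powers of a Frobenius element -/
theorem frob_pow (q : ℕ) (Q : Ideal (OO E)) (σ : GF E) (h : ∀ x : OO E, σ • x - x ^ q ∈ Q) (n : ℕ)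
    (x : OO E) : Ideal.Quotient.mk Q ((σ ^ n) • x) = Ideal.Quotient.mk Q x ^ q ^ n := by
  induction n generalizing x with
  | zero => rw [pow_zero, one_smul, pow_zero, pow_one]
  | succ n ih =>
    rw [pow_succ, mul_smul, ih, pow_succ, pow_mul']
    congr 1
    rw [← map_pow, Ideal.Quotient.mk_eq_mk_iff_sub_mem]
    exact h x

/-- powers of an automorphism on a root of unity -/
theorem root_pow (z : OO E) (σ : GF E) (w : ℕ) (h : σ • z = z ^ w) (n : ℕ) :
    (σ ^ n) • z = z ^ (w ^ n) := by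
  induction n with
  | zero => rw [pow_zero, one_smul, pow_zero, pow_one]
  | succ n ih => rw [pow_succ, mul_smul, h, smul_pow', ih, ← pow_mul, ← pow_succ]

/-- the analysis at one place -/
theorem local_an {ι V T : Type} [Fintype ι] [Fintype V] [Fintype T] (Q : Ideal (OO E))
    (hQ : Q.IsMaximal) (q : ℕ) (hq : 0 < q) (σ : GF E) (hσ : ∀ x : OO E, σ • x - x ^ q ∈ Q)
    (A : V → OO E) (X : V → T → OO E) (b : ι → OO E) (hb0 : ∀ i, b i ≠ 0) (hb : ∀ i, b i ∉ Q)
    (m : ℕ) (LA : V → ι → ℤ) (LX : V → T → ι → ℤ)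
    (hLA : ∀ v, ((A v : OO E) : AlgebraicClosure E) ^ m =
      ∏ i, ((b i : OO E) : AlgebraicClosure E) ^ LA v i)
    (hLX : ∀ v s, ((X v s : OO E) : AlgebraicClosure E) ^ m =
      ∏ i, ((b i : OO E) : AlgebraicClosure E) ^ LX v s i)
    (a : T → ℕ) (ha : ∀ v, A v - ∏ s, X v s ^ a s ∈ Q) (r : ℕ) (hr : r.Prime)
    (hrQ : (r : OO E) ∉ Q) (f g : ℕ) (hgf : g ∣ f) (z : OO E) (y : ι → OO E) (ω : ZMod r)
    (x : ι → ZMod r) (hz : IsPrimitiveRoot z r) (hy : ∀ i, y i ^ r = b i)
    (hzω : σ • z = z ^ ω.val) (hω : orderOf ω = g) (hyx : ∀ i, (σ ^ f) • y i = z ^ (x i).val * y i)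
    (v : V) : ∑ i, (LA v i : ZMod r) * x i =
      ∑ s, (a s : ZMod r) * ∑ i, (LX v s i : ZMod r) * x i := by
  classical
  let _ : Field (OO E ⧸ Q) := Ideal.Quotient.field Q
  have : NeZero r := ⟨hr.ne_zero⟩
  obtain ⟨F, hF⟩ : ∃ F : OO E →+* OO E ⧸ Q, F = Ideal.Quotient.mk Q := ⟨_, rfl⟩
  have hker : ∀ y : OO E, F y = 0 ↔ y ∈ Q := by
    intro y
    rw [hF, Ideal.Quotient.eq_zero_iff_mem]
  have hfb : ∀ i, F (b i) ≠ 0 := fun i h => hb i ((hker _).1 h)
  have hζ : IsPrimitiveRoot (F z) r := by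
    refine prim_quot F hr hz ?_
    intro h
    apply hrQ
    rw [← hker, map_natCast]
    exact h
  have hζ0 : F z ≠ 0 := hζ.ne_zero hr.ne_zero
  obtain ⟨ζ, hζe⟩ : ∃ ζ, ζ = F z := ⟨_, rfl⟩
  rw [← hζe] at hζ hζ0
  -- `σ ^ f` fixes `z`
  have hzf : (σ ^ f) • z = z := by
    rw [root_pow z σ ω.val hzω f]
    have h1 : ((ω.val ^ f : ℕ) : ZMod r) = ((1 : ℕ) : ZMod r) := by
      rw [Nat.cast_pow, ZMod.natCast_zmod_val, Nat.cast_one]
      obtain ⟨d, hd⟩ := hgf
      rw [hd, pow_mul, ← hω, pow_orderOf_eq_one, one_pow]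
    have h2 : ω.val ^ f ≡ 1 [MOD r] := (ZMod.natCast_eq_natCast_iff _ _ _).1 h1
    have h3 : z ^ (ω.val ^ f) = z ^ 1 := by
      rw [← Nat.mod_add_div (ω.val ^ f) r, pow_add, pow_mul, hz.pow_eq_one, one_pow, mul_one, h2,
        Nat.mod_eq_of_lt hr.one_lt]
    rw [h3, pow_one]
  have hq' : 1 ≤ q ^ f := Nat.one_le_pow _ _ hq
  have hpow : ∀ x : OO E, F ((σ ^ f) • x) = F x ^ (q ^ f) := by
    intro x
    rw [hF]
    exact frob_pow q Q σ hσ f x
  obtain ⟨k, hk⟩ : ∃ k, q ^ f = r * k + 1 := by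
    have h1 : ζ ^ (q ^ f) = ζ := by
      rw [hζe, ← hpow, hzf]
    have h2 : ζ ^ (q ^ f - 1) = 1 := by
      have h3 : ζ ^ (q ^ f - 1) * ζ = 1 * ζ := by
        rw [← pow_succ, Nat.sub_add_cancel hq', h1, one_mul]
      exact mul_right_cancel₀ hζ0 h3
    obtain ⟨k, hk⟩ := (hζ.pow_eq_one_iff_dvd _).1 h2
    exact ⟨k, by omega⟩
  have hfbk : ∀ i, F (b i) ^ k = ζ ^ (x i).val := by
    intro i
    have h1 := hpow (y i)
    have h0 : F (y i) ≠ 0 := by
      intro h
      apply hfb i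
      rw [← hy i, map_pow, h, zero_pow hr.ne_zero]
    have h2 : F (y i) ^ r = F (b i) := by rw [← map_pow, hy i]
    rw [hyx i, map_mul, map_pow, hk, pow_succ, pow_mul, h2, ← hζe] at h1
    exact (mul_right_cancel₀ h0 h1).symm
  have hgen : ∀ (c : OO E) (l : ι → ℤ), (c : AlgebraicClosure E) ^ m =
      ∏ i, ((b i : OO E) : AlgebraicClosure E) ^ l i →
      F c ^ (m * k) = ζ ^ (∑ i, l i * ((x i).val : ℤ)) := by
    intro c l hc
    rw [pow_mul, transfer b hb0 c m l hc F hfb, ← Finset.prod_pow, zsum hζ0]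
    refine Finset.prod_congr rfl fun i _ => ?_
    rw [← zpow_natCast, ← zpow_mul, mul_comm (l i), zpow_mul, zpow_natCast, hfbk i,
      ← zpow_natCast, ← zpow_mul, mul_comm (l i)]
  have h1 : F (A v) = ∏ s, F (X v s) ^ a s := by
    have h2 := (hker _).2 (ha v)
    rw [map_sub, map_prod, sub_eq_zero] at h2
    simpa only [map_pow] using h2
  have h3 : ζ ^ (∑ i, LA v i * ((x i).val : ℤ)) =
      ζ ^ (∑ s, (a s : ℤ) * ∑ i, LX v s i * ((x i).val : ℤ)) := by
    rw [← hgen (A v) _ (hLA v), h1, ← Finset.prod_pow, zsum hζ0]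
    refine Finset.prod_congr rfl fun s _ => ?_
    rw [← pow_mul, mul_comm (a s), pow_mul, hgen (X v s) _ (hLX v s), mul_comm, zpow_mul,
      zpow_natCast]
  have h4 : ζ ^ ((∑ i, LA v i * ((x i).val : ℤ)) -
      ∑ s, (a s : ℤ) * ∑ i, LX v s i * ((x i).val : ℤ)) = 1 := by
    rw [zpow_sub₀ hζ0, h3, div_self (zpow_ne_zero _ hζ0)]
  have h5 := (hζ.zpow_eq_one_iff_dvd _).1 h4
  have h6 := (ZMod.intCast_zmod_eq_zero_iff_dvd _ r).2 h5
  push_cast at h6
  rw [sub_eq_zero] at h6
  have h7 : ∀ i, (((x i).val : ℕ) : ZMod r) = x i := fun i => ZMod.natCast_zmod_val (x i)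
  simpa only [h7] using h6

/-- density zero for a given coset -/
theorem coset (hD : S_TDens) (hB : S_TBad) (hI : S_Indep) {V T : Type} [Fintype V] [Fintype T]
    (Vs : Finset V) (A : V → OO E) (X : V → T → OO E) (hcard : Fintype.card T < Vs.card)
    (hA : ∀ v, A v ≠ 0) (hX : ∀ v s, X v s ≠ 0)
    (hp : ∀ g : GF E, ∃ p : Equiv.Perm T, ∀ v s, g • X v s = X v (p s))
    (hind : ∀ n : V → T → ℤ, (∀ v, v ∉ Vs → n v = 0) →
      ∏ v, ∏ s, ((X v s : OO E) : AlgebraicClosure E) ^ n v s = 1 → n = 0)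
    (hrel : ¬ ∃ (m : ℕ) (c : T → ℤ), 0 < m ∧ ∀ v, ((A v : OO E) : AlgebraicClosure E) ^ m =
      ∏ s, ((X v s : OO E) : AlgebraicClosure E) ^ c s)
    (N : IntermediateField E (AlgebraicClosure E)) (hfd : FiniteDimensional E N)
    (hgal : IsGalois E N) (hNA : ∀ v, ((A v : OO E) : AlgebraicClosure E) ∈ N)
    (hNX : ∀ v s, ((X v s : OO E) : AlgebraicClosure E) ∈ N) (γ : GF E) :
    Tendsto (dens fun lam : HeightOneSpectrum (𝓞 E) => ∃ Q : Ideal (OO E), Q.IsMaximal ∧
      Q.comap (algebraMap (𝓞 E) (OO E)) = lam.asIdeal ∧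
      (∀ (g : GF E) v, g • A v ∉ Q) ∧ (∀ (g : GF E) v s, g • X v s ∉ Q) ∧
      (∃ σ : GF E, γ⁻¹ * σ ∈ N.fixingSubgroup ∧
        ∀ x : OO E, σ • x - x ^ Ideal.absNorm lam.asIdeal ∈ Q) ∧
      ∃ a : T → ℕ, ∀ v, A v - ∏ s, X v s ^ a s ∈ Q) atTop (𝓝 0) := by
  classical
  have hne : ∀ x : OO E, x ≠ 0 → (x : AlgebraicClosure E) ≠ 0 :=
    fun x hx h0 => hx (RingOfIntegers.ext h0)
  obtain ⟨U, hU⟩ : ∃ U : Subgroup (GF E), U = N.fixingSubgroup := ⟨_, rfl⟩
  have hUn : U.Normal := by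
    rw [hU]
    infer_instance
  have hUo : IsOpen (U : Set (GF E)) := by
    rw [hU]
    exact N.fixingSubgroup_isOpen
  have hfin : Finite (GF E ⧸ U) := Subgroup.quotient_finite_of_isOpen U hUo
  let _ : Fintype (GF E ⧸ U) := Fintype.ofFinite _
  obtain ⟨c0, hc0⟩ : ∃ c0 : V ⊕ (V × T) → OO E, c0 = Sum.elim A (fun p => X p.1 p.2) := ⟨_, rfl⟩
  have hc0A : ∀ v, c0 (Sum.inl v) = A v := fun v => by rw [hc0]; rfl
  have hc0X : ∀ v s, c0 (Sum.inr (v, s)) = X v s := fun v s => by rw [hc0]; rfl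
  have hc0ne : ∀ i, c0 i ≠ 0 := by
    rintro (v | ⟨v, s⟩)
    · rw [hc0A]
      exact hA v
    · rw [hc0X]
      exact hX v s
  have hc0N : ∀ i, ((c0 i : OO E) : AlgebraicClosure E) ∈ N := by
    rintro (v | ⟨v, s⟩)
    · rw [hc0A]
      exact hNA v
    · rw [hc0X]
      exact hNX v s
  have hUc0 : ∀ u ∈ U, ∀ j, u • c0 j = c0 j := by
    intro u hu j
    rw [hU] at hu
    apply RingOfIntegers.ext
    exact (IntermediateField.mem_fixingSubgroup_iff N u).1 hu _ (hc0N j)
  obtain ⟨c, hc⟩ : ∃ c : (GF E ⧸ U) × (V ⊕ (V × T)) → OO E, c = fun x => x.1.out • c0 x.2 :=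
    ⟨_, rfl⟩
  have hcg : ∀ (g : GF E) j, g • c0 j = c ((QuotientGroup.mk g : GF E ⧸ U), j) := by
    intro g j
    obtain ⟨u, hu⟩ := QuotientGroup.mk_out_eq_mul U g
    rw [hc]
    show g • c0 j = (QuotientGroup.mk g : GF E ⧸ U).out • c0 j
    rw [hu, mul_smul, hUc0 u.1 u.2]
  have hcgc : ∀ (g : GF E) x j, g • c (x, j) = c ((QuotientGroup.mk g : GF E ⧸ U) * x, j) := by
    intro g x j
    have h1 : c (x, j) = x.out • c0 j := by rw [hc]
    rw [h1, smul_smul, hcg, QuotientGroup.mk_mul, QuotientGroup.out_eq']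
  have hcout : ∀ x, c x = x.1.out • c0 x.2 := fun x => by rw [hc]
  have hcne : ∀ x, c x ≠ 0 := by
    intro x
    rw [hcout x, Ne, smul_eq_zero_iff_eq]
    exact hc0ne x.2
  have hcU : ∀ u ∈ U, ∀ x, u • c x = c x := by
    rintro u hu ⟨x, j⟩
    rw [hcgc, (QuotientGroup.eq_one_iff u).2 hu, one_mul]
  have hc1 : ∀ j, c ((1 : GF E ⧸ U), j) = c0 j := by
    intro j
    have h1 := hcg 1 j
    rw [one_smul, QuotientGroup.mk_one] at h1
    exact h1.symm
  obtain ⟨ι, _, e, m, L, hm, hli, hL⟩ := exists_basis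
    (fun x => ((c x : OO E) : AlgebraicClosure E)) (fun x => hne _ (hcne x))
  obtain ⟨b, hb⟩ : ∃ b : ι → OO E, b = fun i => c (e i) := ⟨_, rfl⟩
  have hbe : ∀ i, b i = c (e i) := fun i => by rw [hb]
  have hli : ∀ n : ι → ℤ, ∏ i, ((b i : OO E) : AlgebraicClosure E) ^ n i = 1 → n = 0 := by
    rw [hb]
    exact hli
  have hL : ∀ x, ((c x : OO E) : AlgebraicClosure E) ^ m =
      ∏ i, ((b i : OO E) : AlgebraicClosure E) ^ L x i := by
    rw [hb]
    exact hL
  have hb0 : ∀ i, b i ≠ 0 := fun i => by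
    rw [hbe]
    exact hcne _
  have hbne : ∀ i, ((b i : OO E) : AlgebraicClosure E) ≠ 0 := fun i => hne _ (hb0 i)
  obtain ⟨LA, hLAd⟩ : ∃ LA : V → ι → ℤ, LA = fun v => L ((1 : GF E ⧸ U), Sum.inl v) := ⟨_, rfl⟩
  obtain ⟨LX, hLXd⟩ : ∃ LX : V → T → ι → ℤ, LX = fun v s => L ((1 : GF E ⧸ U), Sum.inr (v, s)) :=
    ⟨_, rfl⟩
  have hLA : ∀ v, ((A v : OO E) : AlgebraicClosure E) ^ m =
      ∏ i, ((b i : OO E) : AlgebraicClosure E) ^ LA v i := by
    intro v
    have h1 := hL ((1 : GF E ⧸ U), Sum.inl v)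
    rw [hc1, hc0A] at h1
    rw [h1, hLAd]
  have hLX : ∀ v s, ((X v s : OO E) : AlgebraicClosure E) ^ m =
      ∏ i, ((b i : OO E) : AlgebraicClosure E) ^ LX v s i := by
    intro v s
    have h1 := hL ((1 : GF E ⧸ U), Sum.inr (v, s))
    rw [hc1, hc0X] at h1
    rw [h1, hLXd]
  -- the matrix
  obtain ⟨H, hH⟩ : ∃ H : Matrix ι ι ℤ, H = Matrix.of fun i k =>
    L ((QuotientGroup.mk γ : GF E ⧸ U) * (e i).1, (e i).2) k := ⟨_, rfl⟩
  have hγb : ∀ u, γ⁻¹ * u ∈ U → ∀ i, ((u • b i : OO E) : AlgebraicClosure E) ^ m =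
      ∏ k, ((b k : OO E) : AlgebraicClosure E) ^ H i k := by
    intro u hu i
    have h1 : (QuotientGroup.mk γ : GF E ⧸ U) = QuotientGroup.mk u := QuotientGroup.eq.2 hu
    have h2 : u • b i = c ((QuotientGroup.mk γ : GF E ⧸ U) * (e i).1, (e i).2) := by
      rw [hbe, h1]
      exact hcgc u (e i).1 (e i).2
    rw [h2, hL, hH]
    rfl
  have hγb' : ∀ i, ((γ : AlgebraicClosure E →+* AlgebraicClosure E)
      ((b i : OO E) : AlgebraicClosure E)) ^ m =
      ∏ k, ((b k : OO E) : AlgebraicClosure E) ^ H i k := by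
    intro i
    exact hγb γ (by rw [inv_mul_cancel]; exact U.one_mem) i
  obtain ⟨f, hf, hγf⟩ : ∃ f : ℕ, 0 < f ∧ γ ^ f ∈ U := by
    refine ⟨Nat.card (GF E ⧸ U), Nat.card_pos, ?_⟩
    rw [← QuotientGroup.eq_one_iff, QuotientGroup.mk_pow]
    exact pow_card_eq_one'
  have hHn : ∀ n : ℕ, ∀ i, (((γ ^ n) • b i : OO E) : AlgebraicClosure E) ^ (m ^ n) =
      ∏ k, ((b k : OO E) : AlgebraicClosure E) ^ (H ^ n) i k := by
    intro n
    induction n with
    | zero =>
      intro i
      rw [pow_zero, one_smul, pow_zero, pow_one, pow_zero]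
      rw [Finset.prod_eq_single i]
      · rw [Matrix.one_apply_eq, zpow_one]
      · intro k _ hk
        rw [Matrix.one_apply_ne hk.symm, zpow_zero]
      · intro h
        exact absurd (Finset.mem_univ i) h
    | succ n ih =>
      intro i
      have h1 := pw (γ : AlgebraicClosure E →+* AlgebraicClosure E)
        (fun i => ((b i : OO E) : AlgebraicClosure E)) hbne m H hγb' _ _ _ (ih i)
      have h2 : (((γ ^ (n + 1)) • b i : OO E) : AlgebraicClosure E) =
          (γ : AlgebraicClosure E →+* AlgebraicClosure E)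
            (((γ ^ n) • b i : OO E) : AlgebraicClosure E) := by
        rw [pow_succ', mul_smul]
        rfl
      rw [h2, pow_succ, h1]
      refine Finset.prod_congr rfl fun k _ => ?_
      rw [pow_succ, Matrix.mul_apply]
  have hHf : H ^ f = (m : ℤ) ^ f • (1 : Matrix ι ι ℤ) := by
    funext i
    apply ind_eq _ hbne hli
    rw [← hHn f i]
    have h1 : (γ ^ f) • b i = b i := by
      rw [hbe]
      exact hcU _ hγf _
    rw [h1, Finset.prod_eq_single i]
    · rw [Matrix.smul_apply, Matrix.one_apply_eq, smul_eq_mul, mul_one, ← Nat.cast_pow, zpow_natCast]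
    · intro k _ hk
      rw [Matrix.smul_apply, Matrix.one_apply_ne hk.symm, smul_zero, zpow_zero]
    · intro h
      exact absurd (Finset.mem_univ i) h
  obtain ⟨p, hpX⟩ := hp γ
  have hMp : ∀ v s k, (m : ℤ) * LX v (p s) k = ∑ i, LX v s i * H i k := by
    intro v s
    have h1 := pw (γ : AlgebraicClosure E →+* AlgebraicClosure E)
      (fun i => ((b i : OO E) : AlgebraicClosure E)) hbne m H hγb' _ _ _ (hLX v s)
    have h2 : (γ : AlgebraicClosure E →+* AlgebraicClosure E)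
        ((X v s : OO E) : AlgebraicClosure E) = ((X v (p s) : OO E) : AlgebraicClosure E) := by
      rw [← hpX v s]
      rfl
    rw [h2, pow_mul, hLX v (p s), ← Finset.prod_pow] at h1
    have h3 : ∏ k, ((b k : OO E) : AlgebraicClosure E) ^ ((m : ℤ) * LX v (p s) k) =
        ∏ k, ((b k : OO E) : AlgebraicClosure E) ^ (∑ i, LX v s i * H i k) := by
      rw [← h1]
      refine Finset.prod_congr rfl fun k _ => ?_
      rw [mul_comm, zpow_mul, zpow_natCast]
    exact fun k => congrFun (ind_eq _ hbne hli _ _ h3) k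
  -- independence modulo powers
  have hnf : NumberField N := NumberField.of_module_finite E N
  have hlift : ∀ x : OO E, (∀ u ∈ U, u • x = x) →
      ∃ x' : 𝓞 N, (((x' : 𝓞 N) : N) : AlgebraicClosure E) = (x : AlgebraicClosure E) := by
    intro x hx
    have hxN : (x : AlgebraicClosure E) ∈ N := by
      rw [← InfiniteGalois.fixedField_fixingSubgroup N, IntermediateField.mem_fixedField_iff]
      intro g hg
      rw [← hU] at hg
      exact congrArg (fun y : OO E => (y : AlgebraicClosure E)) (hx g hg)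
    have hint : IsIntegral ℤ (⟨(x : AlgebraicClosure E), hxN⟩ : N) :=
      (isIntegral_algebraMap_iff (algebraMap N (AlgebraicClosure E)).injective).1 x.2
    exact ⟨⟨⟨(x : AlgebraicClosure E), hxN⟩, hint⟩, rfl⟩
  have hUb : ∀ u ∈ U, ∀ i, u • b i = b i := by
    intro u hu i
    rw [hbe]
    exact hcU u hu _
  choose b' hb' using fun i => hlift (b i) (fun u hu => hUb u hu i)
  have hb'0 : ∀ i, b' i ≠ 0 := by
    intro i h0
    apply hbne i
    rw [← hb' i, h0]
    rfl
  have hli' : ∀ n : ι → ℤ, ∏ i, ((b' i : 𝓞 N) : N) ^ n i = 1 → n = 0 := by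
    intro n hn
    apply hli
    have h1 := congrArg (fun y : N => (y : AlgebraicClosure E)) hn
    have h2 : ((∏ i, ((b' i : 𝓞 N) : N) ^ n i : N) : AlgebraicClosure E) =
        ∏ i, ((b i : OO E) : AlgebraicClosure E) ^ n i := by
      show N.val (∏ i, ((b' i : 𝓞 N) : N) ^ n i) = _
      rw [map_prod]
      refine Finset.prod_congr rfl fun i _ => ?_
      rw [map_zpow₀]
      exact congrArg (· ^ n i) (hb' i)
    rw [← h2]
    exact h1
  obtain ⟨r0, hr0⟩ := hI N ι b' hb'0 hli'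
  have hindep : ∀ r : ℕ, r.Prime → r0 < r → ∀ x : ι → ZMod r,
      (∃ ε : OO E, (∀ u ∈ U, u • ε = ε) ∧ ε ^ r = ∏ i, b i ^ (x i).val) → x = 0 := by
    rintro r hr hrr x ⟨ε, hε, hεx⟩
    obtain ⟨ε', hε'⟩ := hlift ε hε
    refine hr0 r hr hrr x ⟨ε', ?_⟩
    apply RingOfIntegers.ext
    apply N.val.toRingHom.injective
    show N.val (algebraMap (𝓞 N) N (ε' ^ r)) = N.val (algebraMap (𝓞 N) N (∏ i, b' i ^ (x i).val))
    rw [map_pow, map_pow, map_prod, map_prod]
    have h1 := congrArg (fun y : OO E => (y : AlgebraicClosure E)) hεx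
    have h2 : ((ε ^ r : OO E) : AlgebraicClosure E) = (ε : AlgebraicClosure E) ^ r := by
      show algebraMap (OO E) (AlgebraicClosure E) (ε ^ r) = _
      rw [map_pow]
    have h3 : ((∏ i, b i ^ (x i).val : OO E) : AlgebraicClosure E) =
        ∏ i, ((b i : OO E) : AlgebraicClosure E) ^ (x i).val := by
      show algebraMap (OO E) (AlgebraicClosure E) (∏ i, b i ^ (x i).val) = _
      rw [map_prod]
      exact Finset.prod_congr rfl fun i _ => map_pow _ _ _
    have h4 : N.val (algebraMap (𝓞 N) N ε') = (ε : AlgebraicClosure E) := hε'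
    rw [h4, ← h2]
    refine (h1.trans h3).trans ?_
    refine Finset.prod_congr rfl fun i _ => ?_
    rw [map_pow, map_pow]
    exact congrArg (· ^ (x i).val) (hb' i).symm
  -- the bad vectors
  obtain ⟨g, hgf, r1, hr1⟩ := hB ι V T Vs f m H p LA LX hf hm hHf hMp hcard
    (by
      intro n hn hsum
      have h1 : ∏ v, ∏ s, ((X v s : OO E) : AlgebraicClosure E) ^ ((m : ℤ) * n v s) = 1 := by
        have h2 : ∀ v s, ((X v s : OO E) : AlgebraicClosure E) ^ ((m : ℤ) * n v s) =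
            ∏ i, ((b i : OO E) : AlgebraicClosure E) ^ (n v s * LX v s i) := by
          intro v s
          rw [zpow_mul, zpow_natCast, hLX, ← Finset.prod_zpow]
          refine Finset.prod_congr rfl fun i _ => ?_
          rw [← zpow_mul, mul_comm]
        have h3 : ∏ v, ∏ s, ((X v s : OO E) : AlgebraicClosure E) ^ ((m : ℤ) * n v s) =
            ∏ i, ((b i : OO E) : AlgebraicClosure E) ^ (∑ v, ∑ s, n v s * LX v s i) := by
          calc ∏ v, ∏ s, ((X v s : OO E) : AlgebraicClosure E) ^ ((m : ℤ) * n v s) =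
              ∏ v, ∏ s, ∏ i, ((b i : OO E) : AlgebraicClosure E) ^ (n v s * LX v s i) := by
                refine Finset.prod_congr rfl fun v _ => Finset.prod_congr rfl fun s _ => h2 v s
            _ = ∏ v, ∏ i, ∏ s, ((b i : OO E) : AlgebraicClosure E) ^ (n v s * LX v s i) := by
                refine Finset.prod_congr rfl fun v _ => Finset.prod_comm
            _ = ∏ i, ∏ v, ∏ s, ((b i : OO E) : AlgebraicClosure E) ^ (n v s * LX v s i) :=
                Finset.prod_comm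
            _ = _ := by
                refine Finset.prod_congr rfl fun i _ => ?_
                rw [zsum (hbne i)]
                refine Finset.prod_congr rfl fun v _ => ?_
                rw [zsum (hbne i)]
        rw [h3]
        refine Finset.prod_eq_one fun i _ => ?_
        rw [hsum i, zpow_zero]
      have h4 := hind (fun v s => (m : ℤ) * n v s) (by
        intro v hv
        funext s
        rw [hn v hv]
        simp) h1
      funext v s
      have h5 := congrFun (congrFun h4 v) s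
      simp only [Pi.zero_apply, mul_eq_zero] at h5
      rcases h5 with h5 | h5
      · exact absurd h5 (by exact_mod_cast hm.ne')
      · exact h5)
    (by
      rintro ⟨m', c', hm', hmc⟩
      apply hrel
      refine ⟨m * (m'.natAbs * m'.natAbs), fun s => m * (m' * c' s), by
        have := Int.natAbs_pos.2 hm'
        positivity, fun v => ?_⟩
      have e1 : ∀ i, (m' * m') * LA v i = ∑ s, (m' * c' s) * LX v s i := by
        intro i
        rw [mul_assoc, hmc v i, Finset.mul_sum]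
        exact Finset.sum_congr rfl fun s _ => by ring
      have e2 : ((A v : OO E) : AlgebraicClosure E) ^ (m * (m'.natAbs * m'.natAbs)) =
          ∏ i, ((b i : OO E) : AlgebraicClosure E) ^ ((m' * m') * LA v i) := by
        rw [pow_mul, hLA v, ← Finset.prod_pow]
        refine Finset.prod_congr rfl fun i _ => ?_
        rw [← zpow_natCast, ← zpow_mul]
        congr 1
        push_cast
        rw [abs_mul_abs_self]
        ring
      rw [e2]
      have e3 : ∀ s, ((X v s : OO E) : AlgebraicClosure E) ^ ((m : ℤ) * (m' * c' s)) =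
          ∏ i, ((b i : OO E) : AlgebraicClosure E) ^ ((m' * c' s) * LX v s i) := by
        intro s
        rw [zpow_mul, zpow_natCast, hLX, ← Finset.prod_zpow]
        refine Finset.prod_congr rfl fun i _ => ?_
        rw [← zpow_mul, mul_comm]
      rw [Finset.prod_congr rfl fun s _ => e3 s, Finset.prod_comm]
      refine Finset.prod_congr rfl fun i _ => ?_
      rw [e1 i, zsum (hbne i)])
  refine hD E ι b U γ f g m (max r0 r1) H (fun r _ => {x : ι → ZMod r | ∃ a : T → ZMod r,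
    ∀ v, ∑ i, (LA v i : ZMod r) * x i = ∑ s, a s * ∑ i, (LX v s i : ZMod r) * x i})
    hb0 hUn hUo hf hγf hm hgf hHf hUb hγb
    (fun r hr hrr x hx => hindep r hr (lt_of_le_of_lt (le_max_left _ _) hrr) x hx)
    (fun r hr hrr ω hω => hr1 r hr (lt_of_le_of_lt (le_max_right _ _) hrr) ω hω) _ ?_
  rintro lam ⟨Q, hQ, hQlam, hgA, hgX, ⟨σ, hσU, hσ⟩, a, ha⟩
  rw [← hU] at hσU
  refine ⟨σ, ⟨Q, hQ, hQlam, hσ⟩, hσU, ?_⟩
  intro r hr _ hrlam z y ω x hz hy hzω hω hyx
  have hbQ : ∀ i, b i ∉ Q := by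
    intro i
    rw [hbe, hcout]
    rcases h : (e i).2 with v | ⟨v, s⟩
    · rw [hc0A]
      exact hgA _ v
    · rw [hc0X]
      exact hgX _ v s
  have hrQ : (r : OO E) ∉ Q := by
    intro h
    apply hrlam
    rw [← hQlam, Ideal.mem_comap, map_natCast]
    exact h
  have hq : 0 < Ideal.absNorm lam.asIdeal := by
    rw [Nat.pos_iff_ne_zero, Ne, Ideal.absNorm_eq_zero_iff]
    exact lam.ne_bot
  exact ⟨fun s => (a s : ZMod r), fun v => local_an Q hQ (Ideal.absNorm lam.asIdeal) hq σ hσ A X b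
    hb0 hbQ m LA LX hLA hLX a ha r hr hrQ f g hgf z y ω x hz hy hzω hω hyx v⟩

end coset

/-- **Part A6.** -/
theorem main : S_TDens → S_TBad → S_Indep → S_TKD0 := by
  intro hD hB hI E V T _ _ _ _ Vs A X hcard hA hX hp hind hrel
  classical
  obtain ⟨N, hfd, hgal, hN⟩ := exists_gal (K := E) (J := V ⊕ (V × T))
    (fun j => ((Sum.elim A (fun p => X p.1 p.2) j : OO E) : AlgebraicClosure E))
  have hNA : ∀ v, ((A v : OO E) : AlgebraicClosure E) ∈ N := fun v => hN (Sum.inl v)
  have hNX : ∀ v s, ((X v s : OO E) : AlgebraicClosure E) ∈ N := fun v s => hN (Sum.inr (v, s))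
  have hUo : IsOpen (N.fixingSubgroup : Set (GF E)) := N.fixingSubgroup_isOpen
  have hfin : Finite (GF E ⧸ N.fixingSubgroup) :=
    Subgroup.quotient_finite_of_isOpen N.fixingSubgroup hUo
  let _ : Fintype (GF E ⧸ N.fixingSubgroup) := Fintype.ofFinite _
  have hdv : ∀ x : OO E, x ≠ 0 → ∃ D : 𝓞 E, D ≠ 0 ∧ x ∣ algebraMap (𝓞 E) (OO E) D := by
    intro x hx
    have h1 : IsAlgebraic (𝓞 E) x := by
      have h2 : IsIntegral (𝓞 E) x := Algebra.IsIntegral.isIntegral x
      exact h2.isAlgebraic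
    exact h1.exists_nonzero_dvd (mem_nonZeroDivisors_of_ne_zero hx)
  choose DA hDA0 hDA using fun v => hdv (A v) (hA v)
  choose DX hDX0 hDX using fun v s => hdv (X v s) (hX v s)
  have hex := Pool.Agent.H500.Kum.dens_fin (fun v : HeightOneSpectrum (𝓞 E) =>
    (∏ v, DA v) * (∏ v, ∏ s, DX v s) ∈ v.asIdeal) (Pool.Agent.H500.Kum.fin_mem
      (mul_ne_zero (Finset.prod_ne_zero_iff.2 fun v _ => hDA0 v)
        (Finset.prod_ne_zero_iff.2 fun v _ => Finset.prod_ne_zero_iff.2 fun s _ => hDX0 v s)))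
  refine dens_union (Ch := GF E ⧸ N.fixingSubgroup) _ _ _ ?_ hex
    (fun x => coset hD hB hI Vs A X hcard hA hX hp hind hrel N hfd hgal hNA hNX x.out)
  rintro lam ⟨Q, hQ, hQlam, a, ha⟩
  by_cases hex : (∏ v, DA v) * (∏ v, ∏ s, DX v s) ∈ lam.asIdeal
  · exact Or.inl hex
  refine Or.inr ?_
  have hsm : ∀ (g : GF E) (x : OO E) (D : 𝓞 E), x ∣ algebraMap (𝓞 E) (OO E) D → g • x ∈ Q →
      D ∈ lam.asIdeal := by
    rintro g x D ⟨y, hy⟩ hgx
    rw [← hQlam, Ideal.mem_comap, ← Pool.Agent.W401.Frob.smul_alg g D, hy, smul_mul']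
    exact Q.mul_mem_right _ hgx
  obtain ⟨σ, hσ⟩ := exists_frob_at lam Q hQ hQlam
  refine ⟨QuotientGroup.mk σ, Q, hQ, hQlam, ?_, ?_, ⟨σ, ?_, hσ⟩, a, ha⟩
  · intro g v h
    apply hex
    refine Ideal.mul_mem_right _ _ ?_
    exact Ideal.mem_of_dvd _ (Finset.dvd_prod_of_mem DA (Finset.mem_univ v)) (hsm g _ _ (hDA v) h)
  · intro g v s h
    apply hex
    refine Ideal.mul_mem_left _ _ ?_
    refine Ideal.mem_of_dvd _ (Finset.dvd_prod_of_mem (fun v => ∏ s, DX v s) (Finset.mem_univ v)) ?_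
    exact Ideal.mem_of_dvd _ (Finset.dvd_prod_of_mem (DX v) (Finset.mem_univ s))
      (hsm g _ _ (hDX v s) h)
  · rw [← QuotientGroup.eq]
    exact QuotientGroup.out_eq' _

end Pool.Agent.H962.TH.TKD0
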